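import Pool.Agent.UB.Defs
import Pool.Agent.MTR.Pf

/-!
Finite type invariants detect the unknot among the arborescent knots (MP_31fd3b_gt, Theorem U),
block C: the residue argument.
-/

set_option autoImplicit false

open scoped BigOperators

namespace Pool.Agent.UC

open Pool.Agent.MTR Pool.Agent.UA Pool.Agent.UB
open Pool.Agent.TB hiding vec

/-- the coefficient of `1/(q + b)` in a sum of simple fractions -/
def coef (Y : List (ℚ × ℚ)) (b : ℚ) : ℚ := (Y.map fun y => if y.2 = b then y.1 else 0).sum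

/-- Uniqueness of simple fractions, for lists. -/
theorem pf_list (Y : List (ℚ × ℚ)) (S : Set ℕ) (hS : S.Infinite)
    (h : ∀ q ∈ S, (Y.map fun y => y.1 / ((q : ℚ) + y.2)).sum = 0) (b : ℚ) : coef Y b = 0 := by
  classical
  have h1 : ∀ (B : Finset ℚ) (q : ℕ) (X : List (ℚ × ℚ)), (∀ y ∈ X, y.2 ∈ B) →
      ∑ b ∈ B, coef X b / ((q : ℚ) + b) = (X.map fun y => y.1 / ((q : ℚ) + y.2)).sum := by
    intro B q X
    induction X with
    | nil => intro _; simp [coef]
    | cons y X ih =>
      intro hX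
      have ih' := ih fun z hz => hX z (List.mem_cons_of_mem _ hz)
      simp only [coef, List.map_cons, List.sum_cons] at ih' ⊢
      rw [← ih']
      simp_rw [add_div]
      rw [Finset.sum_add_distrib]
      congr 1
      rw [Finset.sum_eq_single y.2]
      · simp
      · intro b _ hb
        rw [if_neg (fun h => hb h.symm), zero_div]
      · intro hb
        exact absurd (hX y (List.mem_cons_self)) hb
  by_cases hb : b ∈ (Y.map Prod.snd).toFinset
  · refine pf (Y.map Prod.snd).toFinset (coef Y) S hS (fun q hq => ?_) b hb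
    rw [h1 _ q Y (fun y hy => by
      rw [List.mem_toFinset]
      exact List.mem_map_of_mem hy)]
    exact h q hq
  · have h2 : ∀ X : List (ℚ × ℚ), (∀ y ∈ X, y.2 ≠ b) → coef X b = 0 := by
      intro X
      induction X with
      | nil => intro _; simp [coef]
      | cons y X ih =>
        intro hX
        have ih' := ih fun z hz => hX z (List.mem_cons_of_mem _ hz)
        simp only [coef, List.map_cons, List.sum_cons] at ih' ⊢
        rw [ih', if_neg (hX y List.mem_cons_self), add_zero]
    refine h2 Y fun y hy h3 => hb ?_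
    rw [List.mem_toFinset, ← h3]
    exact List.mem_map_of_mem hy

/-- a vertex: `D` and the three weights -/
abbrev Vx : Type := ℤ × ℤ × ℤ × ℤ

/-- the vertices of a tree in the context `L` -/
def vts (D : ℤ) : ℤ × ℤ → Tr → List Vx
  | _, .pw _ => []
  | L, .cons a b => (D, L.2, (vec a).1, (vec b).2) ::
      (vts D (rv (addv L (vec b))) a ++ vts D (addv L (rv (vec a))) b)

theorem phT_eq (q : ℚ) (D : ℤ) (T : Tr) : ∀ L : ℤ × ℤ,
    phT q D L T = ((vts D L T).map fun x => ph3 q x.1 x.2.1 x.2.2.1 x.2.2.2).sum := by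
  induction T with
  | pw e => intro L; simp [phT, vts]
  | cons a b iha ihb =>
    intro L
    simp only [phT, vts, List.map_cons, List.sum_cons, List.map_append, List.sum_append]
    rw [iha, ihb]
    ring

theorem OK_iff (D : ℤ) (T : Tr) : ∀ L : ℤ × ℤ,
    OK L T ↔ ∀ x ∈ vts D L T, |x.2.1| = 1 ∨ |x.2.2.1| = 1 ∨ |x.2.2.2| = 1 := by
  induction T with
  | pw e => intro L; simp [OK, vts]
  | cons a b iha ihb =>
    intro L
    simp only [OK, vts, List.mem_cons, List.mem_append, forall_eq_or_imp]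
    rw [iha, ihb]
    constructor
    · rintro ⟨h1, h2, h3⟩
      refine ⟨h1, ?_⟩
      rintro x (hx | hx)
      · exact h2 x hx
      · exact h3 x hx
    · rintro ⟨h1, h2⟩
      exact ⟨h1, fun x hx => h2 x (Or.inl hx), fun x hx => h2 x (Or.inr hx)⟩

/-- The weights of a vertex: one is `±1` or all are at least `2` in modulus. -/
theorem weights {D : ℤ} (hD : D = 1 ∨ D = -1) (T : Tr) : ∀ L : ℤ × ℤ,
    -(addv L (vec T)).1 = D → ∀ x ∈ vts D L T, x.1 = D ∧
      ((|x.2.1| = 1 ∨ |x.2.2.1| = 1 ∨ |x.2.2.2| = 1) ∨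
        (2 ≤ |x.2.1| ∧ 2 ≤ |x.2.2.1| ∧ 2 ≤ |x.2.2.2|)) := by
  induction T with
  | pw e => intro L _ x hx; simp [vts] at hx
  | cons a b iha ihb =>
    intro L hL x hx
    simp only [vts, List.mem_cons, List.mem_append] at hx
    rcases hx with rfl | hx | hx
    · refine ⟨rfl, ?_⟩
      simp only
      have hL' : -(L.1 * ((vec a).1 * (vec b).2) +
          (-(vec a).2 * (vec b).2 + (vec b).1 * (vec a).1) * L.2) = D := by
        rw [← hL]
        simp only [addv, rv, vec]
      have hDa : |D| = 1 := by rcases hD with rfl | rfl <;> norm_num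
      have hunit : ∀ x y : ℤ, |x * y| = 1 → |x| = 1 := by
        intro x y h
        rw [abs_mul] at h
        exact Int.eq_one_of_mul_eq_one_right (abs_nonneg x) h
      by_cases h1 : L.2 = 0
      · left
        right
        left
        rw [h1, mul_zero, add_zero] at hL'
        have h2 : |(vec a).1 * (L.1 * (vec b).2)| = 1 := by
          rw [← hDa, ← hL', abs_neg]
          congr 1
          ring
        exact hunit _ _ h2
      · by_cases h2 : (vec a).1 = 0
        · left
          left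
          rw [h2] at hL'
          have h3 : |L.2 * ((vec a).2 * (vec b).2)| = 1 := by
            rw [← hDa, ← hL']
            congr 1
            ring
          exact hunit _ _ h3
        · by_cases h3 : (vec b).2 = 0
          · left
            left
            rw [h3] at hL'
            have h4 : |L.2 * ((vec b).1 * (vec a).1)| = 1 := by
              rw [← hDa, ← hL', abs_neg]
              congr 1
              ring
            exact hunit _ _ h4
          · by_cases h4 : |L.2| = 1 ∨ |(vec a).1| = 1 ∨ |(vec b).2| = 1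
            · exact Or.inl h4
            · right
              push Not at h4
              have g1 := abs_pos.2 h1
              have g2 := abs_pos.2 h2
              have g3 := abs_pos.2 h3
              refine ⟨?_, ?_, ?_⟩ <;> omega
    · refine iha (rv (addv L (vec b))) ?_ x hx
      rw [← hL]
      simp only [addv, rv, vec]
      ring
    · refine ihb (addv L (rv (vec a))) ?_ x hx
      rw [← hL]
      simp only [addv, rv, vec]
      ring

/-- the simple fractions of a vertex with large weights -/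
def pfr (x : Vx) : List (ℚ × ℚ) :=
  let D : ℚ := x.1
  let u : ℚ := x.2.1
  let v : ℚ := x.2.2.1
  let w : ℚ := x.2.2.2
  [(1, D * (u * v * w)), (-1, 1 / (D * (u * v * w))), (1, D * u / (v * w)), (-1, v * w / (D * u)),
    (1, D * v / (u * w)), (-1, u * w / (D * v)), (1, D * w / (u * v)), (-1, u * v / (D * w))]

/-- `r2` in simple fractions -/
theorem r2_pf {q : ℚ} {a b : ℤ} (ha : a ≠ 0) (hb : b ≠ 0) :
    r2 q a b = 1 / (q + a / b) + -1 / (q + b / a) := by
  have ha' : (a : ℚ) ≠ 0 := by exact_mod_cast ha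
  have hb' : (b : ℚ) ≠ 0 := by exact_mod_cast hb
  unfold r2
  have h1 : (q + a / b : ℚ) = (b * q + a) / b := by field_simp
  have h2 : (q + b / a : ℚ) = (a * q + b) / a := by field_simp
  rw [h1, h2, one_div_div, neg_div, one_div_div]
  ring

theorem ph3_pf (q : ℚ) (x : Vx) (hD : x.1 = 1 ∨ x.1 = -1) (h1 : 2 ≤ |x.2.1|)
    (h2 : 2 ≤ |x.2.2.1|) (h3 : 2 ≤ |x.2.2.2|) :
    ph3 q x.1 x.2.1 x.2.2.1 x.2.2.2 = ((pfr x).map fun y => y.1 / (q + y.2)).sum := by
  obtain ⟨D, u, v, w⟩ := x
  simp only at hD h1 h2 h3 ⊢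
  have hD0 : D ≠ 0 := by rcases hD with rfl | rfl <;> norm_num
  have hu : u ≠ 0 := by rintro rfl; simp at h1
  have hv : v ≠ 0 := by rintro rfl; simp at h2
  have hw : w ≠ 0 := by rintro rfl; simp at h3
  unfold ph3
  rw [r2_pf (mul_ne_zero hD0 (mul_ne_zero (mul_ne_zero hu hv) hw)) one_ne_zero,
    r2_pf (mul_ne_zero hD0 hu) (mul_ne_zero hv hw), r2_pf (mul_ne_zero hD0 hv) (mul_ne_zero hu hw),
    r2_pf (mul_ne_zero hD0 hw) (mul_ne_zero hu hv)]
  simp only [pfr, List.map_cons, List.map_nil, List.sum_cons, List.sum_nil]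
  push_cast
  rw [div_one]
  ring

/-- a weight `±1` kills the function of the vertex -/
theorem ph3_zero (q : ℚ) {D u v w : ℤ} (hD : D = 1 ∨ D = -1)
    (h : |u| = 1 ∨ |v| = 1 ∨ |w| = 1) : ph3 q D u v w = 0 := by
  have hsw : ∀ a b : ℤ, r2 q (D * a) b = -r2 q (D * b) a := by
    intro a b
    rcases hD with rfl | rfl
    · unfold r2
      push_cast
      ring
    · unfold r2
      push_cast
      rw [show -1 * (a : ℚ) * q + b = -(a * q + -1 * b) by ring,
        show -1 * (b : ℚ) * q + a = -(b * q + -1 * a) by ring, neg_one_mul, neg_one_mul,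
        neg_div_neg_eq, neg_div_neg_eq]
      ring
  have hneg : ∀ a b : ℤ, r2 q (-a) (-b) = r2 q a b := by
    intro a b
    unfold r2
    push_cast
    rw [show -(b : ℚ) * q + -a = -(b * q + a) by ring,
      show -(a : ℚ) * q + -b = -(a * q + b) by ring, neg_div_neg_eq, neg_div_neg_eq]
  have hone : ∀ a : ℤ, |a| = 1 → a = 1 ∨ a = -1 := fun a ha => by
    rcases abs_eq (by norm_num : (0 : ℤ) ≤ 1) |>.1 ha with h | h
    · exact Or.inl h
    · exact Or.inr h
  unfold ph3
  rcases h with h | h | h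
  · rcases hone u h with rfl | rfl
    · rw [hsw w (1 * v)]
      rw [one_mul, one_mul, hsw (v * w) 1]
      ring
    · have e1 : r2 q (D * (-1 * v * w)) 1 = r2 q (D * (v * w)) (-1) := by
        rw [← hneg]
        congr 1
        ring
      have e2 : r2 q (D * w) (-1 * v) = r2 q (D * (-1 * w)) v := by
        rw [← hneg]
        congr 1 <;> ring
      rw [e1, e2, hsw (v * w) (-1), hsw (-1 * w) v]
      ring
  · rcases hone v h with rfl | rfl
    · rw [hsw w (u * 1)]
      rw [mul_one, mul_one, one_mul, hsw (u * w) 1]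
      ring_nf
    · have e1 : r2 q (D * (u * -1 * w)) 1 = r2 q (D * (u * w)) (-1) := by
        rw [← hneg]
        congr 1
        ring
      have e2 : r2 q (D * w) (u * -1) = r2 q (D * (-1 * w)) u := by
        rw [← hneg]
        congr 1 <;> ring
      rw [e1, e2, hsw (u * w) (-1), hsw (-1 * w) u]
      ring
  · rcases hone w h with rfl | rfl
    · rw [hsw v (u * 1)]
      rw [mul_one, mul_one, mul_one, hsw (u * v) 1]
      ring
    · have e1 : r2 q (D * (u * v * -1)) 1 = r2 q (D * (u * v)) (-1) := by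
        rw [← hneg]
        congr 1
        ring
      have e2 : r2 q (D * v) (u * -1) = r2 q (D * (v * -1)) u := by
        rw [← hneg]
        congr 1 <;> ring
      rw [e1, e2, hsw (u * v) (-1), hsw (v * -1) u]
      ring

theorem coef_append (X Y : List (ℚ × ℚ)) (b : ℚ) : coef (X ++ Y) b = coef X b + coef Y b := by
  simp [coef]

/-- The residue argument: large vertices do not cancel. -/
theorem residues (X : List Vx) (hX : ∀ x ∈ X, (x.1 = 1 ∨ x.1 = -1) ∧ 2 ≤ |x.2.1| ∧
    2 ≤ |x.2.2.1| ∧ 2 ≤ |x.2.2.2|) (S : Set ℕ) (hS : S.Infinite)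
    (h : ∀ q ∈ S, (X.map fun x => ph3 (q : ℚ) x.1 x.2.1 x.2.2.1 x.2.2.2).sum = 0) : X = [] := by
  by_contra hne
  have hflat : ∀ (q : ℕ) (X : List Vx), (∀ x ∈ X, (x.1 = 1 ∨ x.1 = -1) ∧ 2 ≤ |x.2.1| ∧
      2 ≤ |x.2.2.1| ∧ 2 ≤ |x.2.2.2|) →
      (X.map fun x => ph3 (q : ℚ) x.1 x.2.1 x.2.2.1 x.2.2.2).sum =
      ((X.map pfr).flatten.map fun y => y.1 / ((q : ℚ) + y.2)).sum := by
    intro q X
    induction X with
    | nil => intro _; simp
    | cons x X ih =>
      intro hX
      have hx := hX x List.mem_cons_self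
      rw [List.map_cons, List.sum_cons, List.map_cons, List.flatten_cons, List.map_append,
        List.sum_append, ih fun y hy => hX y (List.mem_cons_of_mem _ hy),
        ph3_pf q x hx.1 hx.2.1 hx.2.2.1 hx.2.2.2]
  obtain ⟨x0, hx0, hmax⟩ : ∃ x0 ∈ X, ∀ x ∈ X, |x.2.1 * x.2.2.1 * x.2.2.2| ≤
      |x0.2.1 * x0.2.2.1 * x0.2.2.2| := by
    classical
    have h1 : X.toFinset.Nonempty := by
      rw [List.toFinset_nonempty_iff]
      exact hne
    obtain ⟨x0, h2, h3⟩ := Finset.exists_max_image X.toFinset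
      (fun x : Vx => |x.2.1 * x.2.2.1 * x.2.2.2|) h1
    exact ⟨x0, List.mem_toFinset.1 h2, fun x hx => h3 x (List.mem_toFinset.2 hx)⟩
  set b0 : ℚ := (x0.1 : ℚ) * ((x0.2.1 : ℚ) * x0.2.2.1 * x0.2.2.2) with hb0
  have hcoef : coef (X.map pfr).flatten b0 = 0 :=
    pf_list _ S hS (fun q hq => by rw [← hflat q X hX]; exact h q hq) b0
  have habs : |b0| = ((|x0.2.1 * x0.2.2.1 * x0.2.2.2| : ℤ) : ℚ) := by
    rw [hb0, abs_mul]
    have h1 : |(x0.1 : ℚ)| = 1 := by
      rcases (hX x0 hx0).1 with h1 | h1 <;> rw [h1] <;> norm_num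
    rw [h1, one_mul]
    push_cast
    rfl
  have hterm : ∀ x ∈ X, (if (x.1 : ℚ) * (x.2.1 * x.2.2.1 * x.2.2.2) = b0 then (1 : ℚ) else 0) ≤
      coef (pfr x) b0 := by
    intro x hx
    obtain ⟨hD, h1, h2, h3⟩ := hX x hx
    have hm := hmax x hx
    have hDq : |(x.1 : ℚ)| = 1 := by rcases hD with h | h <;> rw [h] <;> norm_num
    have h1' : (2 : ℚ) ≤ |(x.2.1 : ℚ)| := by exact_mod_cast h1
    have h2' : (2 : ℚ) ≤ |(x.2.2.1 : ℚ)| := by exact_mod_cast h2
    have h3' : (2 : ℚ) ≤ |(x.2.2.2 : ℚ)| := by exact_mod_cast h3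
    have hm' : |(x.2.1 : ℚ)| * |(x.2.2.1 : ℚ)| * |(x.2.2.2 : ℚ)| ≤ |b0| := by
      rw [habs, ← abs_mul, ← abs_mul]
      exact_mod_cast hm
    have k0 : ∀ {a c : ℚ}, 0 ≤ c → (0 : ℚ) ≤ if a = b0 then c else 0 := by
      intro a c hc
      split_ifs
      · exact hc
      · exact le_rfl
    have k1 : ∀ {a c : ℚ}, |a| < |b0| → (if a = b0 then c else 0) = 0 := by
      intro a c ha
      rw [if_neg]
      rintro rfl
      exact lt_irrefl _ ha
    set u := |(x.2.1 : ℚ)|
    set v := |(x.2.2.1 : ℚ)|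
    set w := |(x.2.2.2 : ℚ)|
    have huv : 4 ≤ u * v := by nlinarith
    have huvw : 8 ≤ u * v * w := by nlinarith
    have m1 : |1 / ((x.1 : ℚ) * (x.2.1 * x.2.2.1 * x.2.2.2))| < |b0| := by
      rw [abs_div, abs_one, abs_mul, abs_mul, abs_mul, hDq, one_mul]
      refine lt_of_lt_of_le ?_ hm'
      change 1 / (u * v * w) < u * v * w
      rw [div_lt_iff₀ (by linarith)]
      nlinarith
    have m2 : |(x.2.2.1 : ℚ) * x.2.2.2 / (x.1 * x.2.1)| < |b0| := by
      rw [abs_div, abs_mul, abs_mul, hDq, one_mul]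
      refine lt_of_lt_of_le ?_ hm'
      change v * w / u < u * v * w
      rw [div_lt_iff₀ (by linarith)]
      have : 0 < v * w := by nlinarith
      nlinarith
    have m3 : |(x.2.1 : ℚ) * x.2.2.2 / (x.1 * x.2.2.1)| < |b0| := by
      rw [abs_div, abs_mul, abs_mul, hDq, one_mul]
      refine lt_of_lt_of_le ?_ hm'
      change u * w / v < u * v * w
      rw [div_lt_iff₀ (by linarith)]
      have : 0 < u * w := by nlinarith
      nlinarith
    have m4 : |(x.2.1 : ℚ) * x.2.2.1 / (x.1 * x.2.2.2)| < |b0| := by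
      rw [abs_div, abs_mul, abs_mul, hDq, one_mul]
      refine lt_of_lt_of_le ?_ hm'
      change u * v / w < u * v * w
      rw [div_lt_iff₀ (by linarith)]
      have : 0 < u * v := by nlinarith
      nlinarith
    simp only [coef, pfr, List.map_cons, List.map_nil, List.sum_cons, List.sum_nil]
    rw [k1 m1, k1 m2, k1 m3, k1 m4]
    have c2 := k0 (a := (x.1 : ℚ) * x.2.1 / (x.2.2.1 * x.2.2.2)) (c := 1) zero_le_one
    have c3 := k0 (a := (x.1 : ℚ) * x.2.2.1 / (x.2.1 * x.2.2.2)) (c := 1) zero_le_one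
    have c4 := k0 (a := (x.1 : ℚ) * x.2.2.2 / (x.2.1 * x.2.2.1)) (c := 1) zero_le_one
    linarith
  have hsum : ∀ Y : List Vx, coef (Y.map pfr).flatten b0 = (Y.map fun x => coef (pfr x) b0).sum := by
    intro Y
    induction Y with
    | nil => simp [coef]
    | cons x Y ih => rw [List.map_cons, List.flatten_cons, coef_append, ih, List.map_cons,
        List.sum_cons]
  have hge : 1 ≤ coef (pfr x0) b0 := by
    have h1 := hterm x0 hx0
    rwa [if_pos (by rw [hb0])] at h1
  have hle : coef (pfr x0) b0 ≤ (X.map fun x => coef (pfr x) b0).sum := by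
    refine List.single_le_sum ?_ _ (List.mem_map_of_mem hx0)
    intro y hy
    rw [List.mem_map] at hy
    obtain ⟨x, hx, rfl⟩ := hy
    refine le_trans ?_ (hterm x hx)
    split_ifs
    · exact zero_le_one
    · exact le_rfl
  rw [← hsum, hcoef] at hle
  linarith

end Pool.Agent.UC
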