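import Pool.Agent.UC.Lim
import Pool.Agent.UC.Res
import Pool.Agent.MTA.Fto
import Pool.Agent.MTA.Cls
import Pool.Agent.MTA.Tail
import Pool.Agent.MTA.Limq
import Pool.Agent.MTA.Cscl
import Pool.Agent.MTA.Fout

/-!
Finite type invariants detect the unknot among the arborescent knots (MP_31fd3b_gt, Theorem U),
block C: from the logarithmic derivatives to the weights.
-/

set_option autoImplicit false

open Filter Topology
open scoped BigOperators Real

namespace Pool.Agent.UC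

open Pool.Agent.MTR Pool.Agent.MTA Pool.Agent.UA Pool.Agent.UB
open Pool.Agent.TB hiding vec

theorem lin_TU {n : ℕ} [NeZero n] (T : Tr) : ∀ L : ℤ × ℤ,
    FTO.Lin (fun χ : ZMod n → ℂ => TU n χ L T) := by
  induction T with
  | pw e =>
    intro L
    simp only [TU]
    exact (FTO.lin_CS _).cmul _
  | cons a b iha ihb =>
    intro L
    simp only [TU]
    exact (((((FTO.lin_CC _ _ _ _).sub (FTO.lin_CC _ _ _ _)).add
      (FTO.lin_CC _ _ _ _)).cmul _).add (iha _)).add (ihb _)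

theorem lin_TL {n : ℕ} [NeZero n] (T : Tr) :
    FTO.Lin (fun χ : ZMod n → ℂ => TL n χ T) := by
  simp only [TL]
  exact (lin_TU T _).add ((FTO.lin_CC _ _ _ _).cmul _)

/-- The weighted sum of the logarithmic derivatives over the units. -/
theorem sum_LU (hf : FOUT_Stmt) {s : ℕ} (hs : 2 ≤ s) {M : ℤ} (hM : Odd M) (c : ℤ) (T : Tr) :
    ∑ τ ∈ Finset.univ.filter (fun τ : ZMod (2 ^ s) => IsUnit τ),
      (ZMod.stdAddChar (-(τ * (M : ZMod (2 ^ s)))) : ℂ) *
        LU (2 ^ s) T ((c : ZMod (2 ^ s)) * τ) =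
      (2 ^ s / 2 : ℂ) * TL (2 ^ s) (fun v => chi s M ((c : ZMod (2 ^ s)) * v)) T := by
  rw [← FTO.transform hf hs hM c (lin_TL T)]
  have h0 := (hf s hs M hM).2
  have h1 : ∀ τ ∈ Finset.univ.filter (fun τ : ZMod (2 ^ s) => IsUnit τ),
      (ZMod.stdAddChar (-(τ * (M : ZMod (2 ^ s)))) : ℂ) *
        LU (2 ^ s) T ((c : ZMod (2 ^ s)) * τ) =
      (ZMod.stdAddChar (-(τ * (M : ZMod (2 ^ s)))) : ℂ) *
        (-(((2 ^ s : ℕ) : ℂ) ^ 2 - 1) / 12 * (exs T : ℂ)) +
      (ZMod.stdAddChar (-(τ * (M : ZMod (2 ^ s)))) : ℂ) *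
        TL (2 ^ s) (fun v => ZMod.stdAddChar (τ * (c : ZMod (2 ^ s)) * v)) T := by
    intro τ _
    unfold LU
    rw [mul_add, mul_comm (c : ZMod (2 ^ s)) τ]
  rw [Finset.sum_congr rfl h1, Finset.sum_add_distrib, ← Finset.sum_mul, h0, zero_mul, zero_add]

theorem main_eq (hf : FOUT_Stmt) {s : ℕ} (hs : 2 ≤ s) {M : ℤ} (hM : Odd M) (Ts : List Tr)
    {K : ℂ} (hK : ∀ κ : ZMod (2 ^ s), IsUnit κ →
      (Ts.map fun T => LU (2 ^ s) T (((-(vec T).1 : ℤ) : ZMod (2 ^ s)) * κ) -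
        LU (2 ^ s) (.pw 1) κ).sum = K) :
    (Ts.map fun T => TL (2 ^ s) (fun v => chi s M (((-(vec T).1 : ℤ) : ZMod (2 ^ s)) * v)) T -
      TL (2 ^ s) (fun v => chi s M (((1 : ℤ) : ZMod (2 ^ s)) * v)) (.pw 1)).sum = 0 := by
  have hne : (2 ^ s / 2 : ℂ) ≠ 0 := by
    simp
  have h0 := (hf s hs M hM).2
  have h1 : ∀ X : List Tr, ∑ τ ∈ Finset.univ.filter (fun τ : ZMod (2 ^ s) => IsUnit τ),
      (ZMod.stdAddChar (-(τ * (M : ZMod (2 ^ s)))) : ℂ) *
        (X.map fun T => LU (2 ^ s) T (((-(vec T).1 : ℤ) : ZMod (2 ^ s)) * τ) -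
          LU (2 ^ s) (.pw 1) τ).sum =
      (2 ^ s / 2 : ℂ) * (X.map fun T =>
        TL (2 ^ s) (fun v => chi s M (((-(vec T).1 : ℤ) : ZMod (2 ^ s)) * v)) T -
        TL (2 ^ s) (fun v => chi s M (((1 : ℤ) : ZMod (2 ^ s)) * v)) (.pw 1)).sum := by
    intro X
    induction X with
    | nil => simp
    | cons T X ih =>
      simp only [List.map_cons, List.sum_cons]
      rw [mul_add, ← ih]
      simp_rw [mul_add]
      rw [Finset.sum_add_distrib]
      congr 1
      simp_rw [mul_sub]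
      rw [Finset.sum_sub_distrib, sum_LU hf hs hM, ← sum_LU hf hs hM 1 (.pw 1)]
      congr 1
      refine Finset.sum_congr rfl fun τ _ => ?_
      rw [Int.cast_one, one_mul]
  have h2 := h1 Ts
  rw [Finset.sum_congr rfl fun τ hτ => by rw [hK τ (Finset.mem_filter.1 hτ).2],
    ← Finset.sum_mul, h0, zero_mul] at h2
  rcases mul_eq_zero.1 h2.symm with h3 | h3
  · exact absurd h3 hne
  · exact h3

theorem tendsto_list {α : Type} (X : List α) (f : α → ℕ → ℂ) (g : α → ℂ)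
    (h : ∀ x ∈ X, Tendsto (f x) atTop (𝓝 (g x))) :
    Tendsto (fun s => (X.map fun x => f x s).sum) atTop (𝓝 (X.map g).sum) := by
  induction X with
  | nil => simp
  | cons x X ih =>
    simp only [List.map_cons, List.sum_cons]
    exact (h x List.mem_cons_self).add (ih fun y hy => h y (List.mem_cons_of_mem _ hy))

theorem ev_list {α : Type} (X : List α) (p : α → ℕ → Prop) (h : ∀ x ∈ X, ∀ᶠ q in atTop, p x q) :
    ∀ᶠ q in atTop, ∀ x ∈ X, p x q := by
  induction X with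
  | nil => simp
  | cons x X ih =>
    filter_upwards [h x List.mem_cons_self, ih fun y hy => h y (List.mem_cons_of_mem _ hy)]
      with q h1 h2
    intro y hy
    rw [List.mem_cons] at hy
    rcases hy with rfl | hy
    · exact h1
    · exact h2 y hy

/-- Block C. If the sum of the logarithmic derivatives of a list of trees with determinant `±1`,
compared with the unknot, is constant then every vertex has a weight `±1`. -/
theorem cfin (Ts : List Tr) (hT : ∀ T ∈ Ts, |(vec T).1| = 1)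
    (h : ∀ s : ℕ, 2 ≤ s → ∃ K : ℂ, ∀ κ : ZMod (2 ^ s), IsUnit κ →
      (Ts.map fun T => LU (2 ^ s) T (((-(vec T).1 : ℤ) : ZMod (2 ^ s)) * κ) -
        LU (2 ^ s) (.pw 1) κ).sum = K) :
    ∀ T ∈ Ts, OK (0, 1) T := by
  classical
  have hlq : LIMQ_Stmt := limq (tail cls)
  have hD : ∀ T ∈ Ts, -(vec T).1 = 1 ∨ -(vec T).1 = -1 := by
    intro T hTs
    rcases abs_eq (by norm_num : (0 : ℤ) ≤ 1) |>.1 (hT T hTs) with h1 | h1
    · right; rw [h1]
    · left; rw [h1]; norm_num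
  have h1 : ∀ᶠ q : ℕ in atTop, ∀ T ∈ Ts, q.Prime →
      Tendsto (fun s : ℕ => ((π : ℂ) / 2 ^ s) ^ 2 *
        TL (2 ^ s) (fun v => chi s q (((-(vec T).1 : ℤ) : ZMod (2 ^ s)) * v)) T) atTop
        (𝓝 ((1 / 2 * phT q (-(vec T).1) (0, 1) T - 1 / q : ℚ) : ℂ)) :=
    ev_list Ts _ fun T hTs => tl_lim hlq cscl (hD T hTs) T rfl
  have h2 := tl_lim hlq cscl (D := 1) (Or.inl rfl) (.pw 1) (by simp [vec])
  obtain ⟨N, hN⟩ := eventually_atTop.1 (h1.and (h2.and (eventually_ge_atTop 3)))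
  set S : Set ℕ := {q | q.Prime ∧ N ≤ q} with hS
  have hSi : S.Infinite := by
    rw [Set.infinite_iff_frequently_cofinite, Nat.cofinite_eq_atTop]
    refine Filter.frequently_atTop.2 fun a => ?_
    obtain ⟨q, hq1, hq2⟩ := Nat.exists_infinite_primes (max a N)
    exact ⟨q, (le_max_left _ _).trans hq1, hq2, (le_max_right _ _).trans hq1⟩
  have h3 : ∀ q ∈ S, (Ts.map fun T => phT (q : ℚ) (-(vec T).1) (0, 1) T).sum = 0 := by
    intro q hq
    obtain ⟨g1, g2, g3⟩ := hN q hq.2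
    have hqo : Odd (q : ℤ) := by
      have := hq.1.odd_of_ne_two (by omega)
      exact_mod_cast this
    have k1 := tendsto_list Ts (fun T s => ((π : ℂ) / 2 ^ s) ^ 2 *
        TL (2 ^ s) (fun v => chi s q (((-(vec T).1 : ℤ) : ZMod (2 ^ s)) * v)) T -
      ((π : ℂ) / 2 ^ s) ^ 2 *
        TL (2 ^ s) (fun v => chi s q (((1 : ℤ) : ZMod (2 ^ s)) * v)) (.pw 1))
      (fun T => ((1 / 2 * phT q (-(vec T).1) (0, 1) T - 1 / q : ℚ) : ℂ) -
        ((1 / 2 * phT q 1 (0, 1) (.pw 1) - 1 / q : ℚ) : ℂ))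
      (fun T hTs => (g1 T hTs hq.1).sub (g2 hq.1))
    have k2 : Tendsto (fun s : ℕ => (Ts.map fun T => ((π : ℂ) / 2 ^ s) ^ 2 *
        TL (2 ^ s) (fun v => chi s q (((-(vec T).1 : ℤ) : ZMod (2 ^ s)) * v)) T -
      ((π : ℂ) / 2 ^ s) ^ 2 *
        TL (2 ^ s) (fun v => chi s q (((1 : ℤ) : ZMod (2 ^ s)) * v)) (.pw 1)).sum) atTop
      (𝓝 0) := by
      refine tendsto_const_nhds.congr' ?_
      filter_upwards [eventually_ge_atTop 2] with s hs
      obtain ⟨K, hK⟩ := h s hs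
      have k3 := main_eq fout hs hqo Ts hK
      simp_rw [← mul_sub]
      rw [List.sum_map_mul_left, k3, mul_zero]
    have k3 := tendsto_nhds_unique k1 k2
    have k4 : (Ts.map fun T => ((1 / 2 * phT q (-(vec T).1) (0, 1) T - 1 / q : ℚ) : ℂ) -
        ((1 / 2 * phT q 1 (0, 1) (.pw 1) - 1 / q : ℚ) : ℂ)).sum =
        ((1 / 2 * (Ts.map fun T => phT (q : ℚ) (-(vec T).1) (0, 1) T).sum : ℚ) : ℂ) := by
      have : ∀ X : List Tr, (X.map fun T =>
          ((1 / 2 * phT q (-(vec T).1) (0, 1) T - 1 / q : ℚ) : ℂ) -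
          ((1 / 2 * phT q 1 (0, 1) (.pw 1) - 1 / q : ℚ) : ℂ)).sum =
          ((1 / 2 * (X.map fun T => phT (q : ℚ) (-(vec T).1) (0, 1) T).sum : ℚ) : ℂ) := by
        intro X
        induction X with
        | nil => simp
        | cons T X ih =>
          simp only [List.map_cons, List.sum_cons]
          rw [ih, ← Rat.cast_sub, ← Rat.cast_add]
          congr 1
          have : phT (q : ℚ) 1 (0, 1) (.pw 1) = 0 := rfl
          rw [this]
          ring
      exact this Ts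
    rw [k4] at k3
    have k5 : (1 / 2 * (Ts.map fun T => phT (q : ℚ) (-(vec T).1) (0, 1) T).sum : ℚ) = 0 := by
      exact_mod_cast k3
    linarith
  -- the vertices
  set X : List Vx := (Ts.map fun T => vts (-(vec T).1) (0, 1) T).flatten with hX
  have hW : ∀ x ∈ X, (x.1 = 1 ∨ x.1 = -1) ∧
      ((|x.2.1| = 1 ∨ |x.2.2.1| = 1 ∨ |x.2.2.2| = 1) ∨
        (2 ≤ |x.2.1| ∧ 2 ≤ |x.2.2.1| ∧ 2 ≤ |x.2.2.2|)) := by
    intro x hx
    rw [hX, List.mem_flatten] at hx
    obtain ⟨l, hl, hxl⟩ := hx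
    rw [List.mem_map] at hl
    obtain ⟨T, hTs, rfl⟩ := hl
    obtain ⟨w1, w2⟩ := weights (hD T hTs) T (0, 1) (by simp only [addv]; ring) x hxl
    exact ⟨by rw [w1]; exact hD T hTs, w2⟩
  have hsum : ∀ q : ℕ, (Ts.map fun T => phT (q : ℚ) (-(vec T).1) (0, 1) T).sum =
      (X.map fun x => ph3 (q : ℚ) x.1 x.2.1 x.2.2.1 x.2.2.2).sum := by
    intro q
    have : ∀ Y : List Tr, (Y.map fun T => phT (q : ℚ) (-(vec T).1) (0, 1) T).sum =
        ((Y.map fun T => vts (-(vec T).1) (0, 1) T).flatten.map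
          fun x => ph3 (q : ℚ) x.1 x.2.1 x.2.2.1 x.2.2.2).sum := by
      intro Y
      induction Y with
      | nil => simp
      | cons T Y ih =>
        rw [List.map_cons, List.sum_cons, ih, List.map_cons, List.flatten_cons, List.map_append,
          List.sum_append, phT_eq]
    exact this Ts
  set big : Vx → Bool := fun x => decide (2 ≤ |x.2.1| ∧ 2 ≤ |x.2.2.1| ∧ 2 ≤ |x.2.2.2|) with hbig
  have hfil : ∀ (q : ℕ) (Y : List Vx), (∀ x ∈ Y, (x.1 = 1 ∨ x.1 = -1) ∧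
      ((|x.2.1| = 1 ∨ |x.2.2.1| = 1 ∨ |x.2.2.2| = 1) ∨
        (2 ≤ |x.2.1| ∧ 2 ≤ |x.2.2.1| ∧ 2 ≤ |x.2.2.2|))) →
      (Y.map fun x => ph3 (q : ℚ) x.1 x.2.1 x.2.2.1 x.2.2.2).sum =
        ((Y.filter big).map fun x => ph3 (q : ℚ) x.1 x.2.1 x.2.2.1 x.2.2.2).sum := by
    intro q Y
    induction Y with
    | nil => intro _; simp
    | cons x Y ih =>
      intro hY
      have ih' := ih fun y hy => hY y (List.mem_cons_of_mem _ hy)
      have hx := hY x List.mem_cons_self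
      by_cases hb : 2 ≤ |x.2.1| ∧ 2 ≤ |x.2.2.1| ∧ 2 ≤ |x.2.2.2|
      · rw [List.filter_cons_of_pos (by simp [hbig, hb]), List.map_cons, List.sum_cons, ih',
          List.map_cons, List.sum_cons]
      · rw [List.filter_cons_of_neg (by simpa [hbig] using hb), List.map_cons, List.sum_cons, ih',
          ph3_zero q hx.1 (hx.2.resolve_right hb), zero_add]
  have hnil : X.filter big = [] := by
    refine residues (X.filter big) (fun x hx => ?_) S hSi fun q hq => ?_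
    · rw [List.mem_filter] at hx
      have h5 : 2 ≤ |x.2.1| ∧ 2 ≤ |x.2.2.1| ∧ 2 ≤ |x.2.2.2| := by simpa [hbig] using hx.2
      exact ⟨(hW x hx.1).1, h5⟩
    · rw [← hfil q X hW, ← hsum q]
      exact h3 q hq
  intro T hTs
  rw [OK_iff (-(vec T).1)]
  intro x hx
  have hxX : x ∈ X := by
    rw [hX, List.mem_flatten]
    exact ⟨_, List.mem_map_of_mem hTs, hx⟩
  rcases (hW x hxX).2 with h5 | h5
  · exact h5
  · have h6 : x ∈ X.filter big := by
      rw [List.mem_filter]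
      exact ⟨hxX, by simpa [hbig] using h5⟩
    rw [hnil] at h6
    simp at h6

end Pool.Agent.UC
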