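import Pool.Agent.UB.Defs
import Pool.Agent.MTA.Lims
import Pool.Agent.MTA.Stmts0

/-!
Finite type invariants detect the unknot among the arborescent knots (MP_31fd3b_gt, Theorem U),
block C: the limit of the sums of a tree.
-/

set_option autoImplicit false

open Filter Topology
open scoped BigOperators Real

namespace Pool.Agent.UC

open Pool.Agent.MTR Pool.Agent.MTA Pool.Agent.UA Pool.Agent.UB
open Pool.Agent.TB hiding vec

/-- The limit of the `cot cot` sums (part of the proof of `lims`). -/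
theorem cc_key (hq : LIMQ_Stmt) (l V g h : ℤ × ℤ) (ε : ℤ) (hε : ε * ε = 1)
    (hgh : det2 g h = ε) (c M : ℤ) (hD : Odd (det2 l V)) (hcodd : Odd c)
    (hM : Odd M) (Z : Finset (ℤ × ℤ)) (hZ : ∀ R, R ∈ Z ↔ c * Nl l V R = M) :
    Tendsto (fun s : ℕ => ((π : ℂ) / 2 ^ s) ^ 2 *
      CC (2 ^ s) l V g h (fun v => chi s M (c * v))) atTop
      (𝓝 (∑ R ∈ Z, 1 / ((det2 R g : ℂ) * (det2 R h : ℂ)))) := by
  have hε2 : ε ^ 2 = 1 := by rw [pow_two, hε]
  set B : ℤ := det2 l g * det2 h V + det2 l h * det2 g V with hB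
  obtain ⟨hBodd, hAC⟩ := LIMS.parity l V g h ε hε hgh hD
  let ψ : ℤ × ℤ → ℤ × ℤ := fun R => (det2 R g, det2 R h)
  have hψ : Function.Injective ψ := by
    intro R S hRS
    rw [← LIMS.recov g h ε hε hgh R, ← LIMS.recov g h ε hε hgh S]
    have h1 : det2 R g = det2 S g := congrArg Prod.fst hRS
    have h2 : det2 R h = det2 S h := congrArg Prod.snd hRS
    rw [h1, h2]
  have hlim := hq (Nl l V h) (-B) (Nl l V g) c M hcodd hM hBodd.neg hAC
    (Z.image ψ) (by
      rintro ⟨a, b⟩
      simp only [Finset.mem_image]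
      constructor
      · rintro ⟨R, hR, hRab⟩
        have ha : det2 R g = a := congrArg Prod.fst hRab
        have hb : det2 R h = b := congrArg Prod.snd hRab
        rw [hZ] at hR
        rw [← hR, ← LIMS.recov g h ε hε hgh R, LIMS.Nl_smul, hε2, ha, hb, LIMS.Nl_form]
        ring
      · intro hab
        refine ⟨ε • (b • g - a • h), ?_, ?_⟩
        · rw [hZ, LIMS.Nl_smul, hε2, LIMS.Nl_form, ← hab]
          ring
        · have hgh' : g.1 * h.2 - g.2 * h.1 = ε := hgh
          change (det2 _ g, det2 _ h) = (a, b)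
          simp only [det2, Prod.smul_fst, Prod.smul_snd, Prod.fst_sub, Prod.snd_sub,
            smul_eq_mul, Prod.mk.injEq]
          constructor
          · linear_combination (ε * a) * hgh' + a * hε
          · linear_combination (ε * b) * hgh' + b * hε)
  rw [Finset.sum_image hψ.injOn] at hlim
  refine hlim.congr ?_
  intro s
  congr 1
  unfold CC
  rw [LIMS.sum_change (2 ^ s) g h ε hε hgh (fun a b R =>
    ct (2 ^ s) a * ct (2 ^ s) b * chi s M (c * Nlm (2 ^ s) l V R))]
  refine Finset.sum_congr rfl fun a _ => Finset.sum_congr rfl fun b _ => ?_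
  congr 2
  have hε3 : (ε : ZMod (2 ^ s)) ^ 2 = 1 := by
    have := congrArg (fun z : ℤ => (z : ZMod (2 ^ s))) hε2
    simpa using this
  simp only [Nlm, detm, Nl, hB, det2]
  push_cast
  linear_combination (-(c : ZMod (2 ^ s)) * ((b * g.1 - a * h.1) * l.2 - (b * g.2 - a * h.2) * l.1) *
    ((b * g.1 - a * h.1) * V.2 - (b * g.2 - a * h.2) * V.1)) * (-hε3)

/-- a linear form in a large number does not vanish -/
theorem lin_ne {q a b : ℤ} (hb : |b| < q) (h : a ≠ 0 ∨ b ≠ 0) : a * q + b ≠ 0 := by
  intro h0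
  have h1 : q ∣ b := ⟨-a, by linear_combination h0⟩
  have h2 : b = 0 := Int.eq_zero_of_abs_lt_dvd h1 hb
  subst h2
  have hq : 0 < q := lt_of_le_of_lt (abs_nonneg _) hb
  rw [add_zero, mul_eq_zero] at h0
  rcases h with h | h
  · rcases h0 with h0 | h0
    · exact h h0
    · omega
  · exact h rfl

/-- the solutions for a prime -/
theorem sols {l V : ℤ × ℤ} {D : ℤ} (hD : D = 1 ∨ D = -1) (hlV : det2 l V = D) {q : ℕ}
    (hq : q.Prime) (R : ℤ × ℤ) :
    D * Nl l V R = q ↔
      (R = (D * V.1 + q * l.1, D * V.2 + q * l.2) ∨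
        R = (-(D * V.1 + q * l.1), -(D * V.2 + q * l.2))) ∨
      (R = (D * q * V.1 + l.1, D * q * V.2 + l.2) ∨
        R = (-(D * q * V.1 + l.1), -(D * q * V.2 + l.2))) := by
  have hD2 : D * D = 1 := by rcases hD with rfl | rfl <;> norm_num
  have hlV' : l.1 * V.2 - l.2 * V.1 = D := hlV
  have hrec : ∀ R : ℤ × ℤ, R = (D * (det2 l R * V.1 + det2 R V * l.1),
      D * (det2 l R * V.2 + det2 R V * l.2)) := by
    intro R
    ext
    · simp only [det2]
      linear_combination (-R.1 * D) * hlV' - R.1 * hD2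
    · simp only [det2]
      linear_combination (-R.2 * D) * hlV' - R.2 * hD2
  constructor
  · intro h
    have h1 : det2 l R * (D * det2 R V) = q := by
      rw [← h]
      simp only [Nl]
      ring
    have h2 : det2 l R ∣ (q : ℤ) := ⟨_, h1.symm⟩
    have h3 : (det2 l R).natAbs ∣ q := by
      have := Int.natAbs_dvd_natAbs.2 h2
      simpa using this
    rcases (Nat.dvd_prime hq).1 h3 with h4 | h4
    · left
      rcases Int.natAbs_eq (det2 l R) with h5 | h5
      · left
        rw [h4] at h5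
        push_cast at h5
        rw [h5, one_mul] at h1
        have h6 : det2 R V = D * q := by
          rw [← h1, ← mul_assoc, hD2, one_mul]
        rw [hrec R, h5, h6]
        ext
        · simp only
          linear_combination (q * l.1) * hD2
        · simp only
          linear_combination (q * l.2) * hD2
      · right
        rw [h4] at h5
        push_cast at h5
        rw [h5] at h1
        have h6 : det2 R V = -(D * q) := by
          rw [← h1]
          linear_combination (-det2 R V) * hD2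
        rw [hrec R, h5, h6]
        ext
        · simp only
          linear_combination (-(q * l.1 : ℤ)) * hD2
        · simp only
          linear_combination (-(q * l.2 : ℤ)) * hD2
    · right
      have hq0 : (q : ℤ) ≠ 0 := by exact_mod_cast hq.ne_zero
      rcases Int.natAbs_eq (det2 l R) with h5 | h5
      · left
        rw [h4] at h5
        rw [h5] at h1
        have h6 : det2 R V = D := by
          have h7 : (q : ℤ) * (D * det2 R V) = q * 1 := by rw [h1, mul_one]
          have h8 := mul_left_cancel₀ hq0 h7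
          linear_combination D * h8 - det2 R V * hD2
        rw [hrec R, h5, h6]
        ext
        · simp only
          linear_combination l.1 * hD2
        · simp only
          linear_combination l.2 * hD2
      · right
        rw [h4] at h5
        rw [h5] at h1
        have h6 : det2 R V = -D := by
          have h7 : (q : ℤ) * (D * det2 R V) = q * (-1) := by linear_combination -h1
          have h8 := mul_left_cancel₀ hq0 h7
          linear_combination D * h8 - det2 R V * hD2
        rw [hrec R, h5, h6]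
        ext
        · simp only
          linear_combination -l.1 * hD2
        · simp only
          linear_combination -l.2 * hD2
  · simp only [Nl, det2]
    rintro ((rfl | rfl) | (rfl | rfl))
    · simp only
      linear_combination (q * (l.1 * V.2 - l.2 * V.1 + D) * (D * D)) * hlV' + (q * (D * D + 1)) * hD2
    · simp only
      linear_combination (q * (l.1 * V.2 - l.2 * V.1 + D) * (D * D)) * hlV' + (q * (D * D + 1)) * hD2
    · simp only
      linear_combination (q * (l.1 * V.2 - l.2 * V.1 + D) * (D * D)) * hlV' + (q * (D * D + 1)) * hD2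
    · simp only
      linear_combination (q * (l.1 * V.2 - l.2 * V.1 + D) * (D * D)) * hlV' + (q * (D * D + 1)) * hD2

/-- The limit of the `cot cot` sums for determinant `D = ±1` and a large prime. -/
theorem cc_lim (hlq : LIMQ_Stmt) (l V : ℤ × ℤ) (D : ℤ) (hD : D = 1 ∨ D = -1)
    (hlV : det2 l V = D) (q : ℕ) (hq : q.Prime) (hq3 : 3 ≤ q) (h1 : |l.1| < q) (h2 : |l.2| < q)
    (h3 : |V.1| < q) (h4 : |V.2| < q) :
    Tendsto (fun s : ℕ => ((π : ℂ) / 2 ^ s) ^ 2 *
      CC (2 ^ s) l V (1, 0) (0, 1) (fun v => chi s q (D * v))) atTop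
      (𝓝 ((2 * (r2 q (D * V.2) l.2 + r2 q (D * l.1) V.1) : ℚ) : ℂ)) := by
  have hD2 : D * D = 1 := by rcases hD with rfl | rfl <;> norm_num
  have hDo : Odd D := by rcases hD with rfl | rfl <;> decide
  have hlV' : l.1 * V.2 - l.2 * V.1 = D := hlV
  have hD0 : D ≠ 0 := by rintro rfl; simp at hD2
  have hqo : Odd (q : ℤ) := by
    have := hq.odd_of_ne_two (by omega)
    exact_mod_cast this
  set R1 : ℤ × ℤ := (D * V.1 + q * l.1, D * V.2 + q * l.2) with hR1
  set R1' : ℤ × ℤ := (-(D * V.1 + q * l.1), -(D * V.2 + q * l.2)) with hR1'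
  set R2 : ℤ × ℤ := (D * q * V.1 + l.1, D * q * V.2 + l.2) with hR2
  set R2' : ℤ × ℤ := (-(D * q * V.1 + l.1), -(D * q * V.2 + l.2)) with hR2'
  have d1 : det2 l R1 = 1 := by
    simp only [hR1, det2]
    linear_combination D * hlV' + hD2
  have d1' : det2 l R1' = -1 := by
    simp only [hR1', det2]
    linear_combination -D * hlV' - hD2
  have d2 : det2 l R2 = q := by
    simp only [hR2, det2]
    linear_combination (q * D) * hlV' + q * hD2
  have d2' : det2 l R2' = -q := by
    simp only [hR2', det2]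
    linear_combination (-(q * D : ℤ)) * hlV' - q * hD2
  have hq' : (3 : ℤ) ≤ q := by exact_mod_cast hq3
  have n1 : R1 ≠ R1' := by intro h; rw [h, d1'] at d1; omega
  have n2 : R1 ≠ R2 := by intro h; rw [h, d2] at d1; omega
  have n3 : R1 ≠ R2' := by intro h; rw [h, d2'] at d1; omega
  have n4 : R1' ≠ R2 := by intro h; rw [h, d2] at d1'; omega
  have n5 : R1' ≠ R2' := by intro h; rw [h, d2'] at d1'; omega
  have n6 : R2 ≠ R2' := by intro h; rw [h, d2'] at d2; omega
  have key := cc_key hlq l V (1, 0) (0, 1) 1 (by norm_num) (by simp [det2]) D q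
    (by rw [hlV]; exact hDo) hDo hqo {R1, R1', R2, R2'} (by
      intro R
      rw [sols hD hlV hq R]
      simp only [Finset.mem_insert, Finset.mem_singleton]
      tauto)
  have hsum : (∑ R ∈ ({R1, R1', R2, R2'} : Finset (ℤ × ℤ)),
      1 / ((det2 R (1, 0) : ℂ) * (det2 R (0, 1) : ℂ))) =
      ((2 * (r2 q (D * V.2) l.2 + r2 q (D * l.1) V.1) : ℚ) : ℂ) := by
    have hsq : (∑ R ∈ ({R1, R1', R2, R2'} : Finset (ℤ × ℤ)),
      1 / ((det2 R (1, 0) : ℂ) * (det2 R (0, 1) : ℂ))) =
      ((∑ R ∈ ({R1, R1', R2, R2'} : Finset (ℤ × ℤ)),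
        1 / ((det2 R (1, 0) : ℚ) * (det2 R (0, 1) : ℚ)) : ℚ) : ℂ) := by
      push_cast
      rfl
    rw [hsq]
    congr 1
    rw [Finset.sum_insert (by simp [n1, n2, n3]), Finset.sum_insert (by simp [n4, n5]),
      Finset.sum_insert (by simp [n6]), Finset.sum_singleton]
    have z1 : ((l.1 * q + D * V.1 : ℤ) : ℚ) ≠ 0 := by
      have : l.1 * q + D * V.1 ≠ 0 := by
        apply lin_ne
        · rcases hD with rfl | rfl <;> simpa using h3
        · by_contra h
          push Not at h
          have h5 : V.1 = 0 := by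
            have := h.2
            rcases mul_eq_zero.1 this with h6 | h6
            · exact absurd h6 hD0
            · exact h6
          rw [h.1, h5] at hlV'
          simp at hlV'
          exact hD0 hlV'.symm
      exact_mod_cast this
    have z2 : ((l.2 * q + D * V.2 : ℤ) : ℚ) ≠ 0 := by
      have : l.2 * q + D * V.2 ≠ 0 := by
        apply lin_ne
        · rcases hD with rfl | rfl <;> simpa using h4
        · by_contra h
          push Not at h
          have h5 : V.2 = 0 := by
            have := h.2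
            rcases mul_eq_zero.1 this with h6 | h6
            · exact absurd h6 hD0
            · exact h6
          rw [h.1, h5] at hlV'
          simp at hlV'
          exact hD0 hlV'.symm
      exact_mod_cast this
    have z3 : ((V.1 * q + D * l.1 : ℤ) : ℚ) ≠ 0 := by
      have : V.1 * q + D * l.1 ≠ 0 := by
        apply lin_ne
        · rcases hD with rfl | rfl <;> simpa using h1
        · by_contra h
          push Not at h
          have h5 : l.1 = 0 := by
            have := h.2
            rcases mul_eq_zero.1 this with h6 | h6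
            · exact absurd h6 hD0
            · exact h6
          rw [h.1, h5] at hlV'
          simp at hlV'
          exact hD0 hlV'.symm
      exact_mod_cast this
    have z4 : ((V.2 * q + D * l.2 : ℤ) : ℚ) ≠ 0 := by
      have : V.2 * q + D * l.2 ≠ 0 := by
        apply lin_ne
        · rcases hD with rfl | rfl <;> simpa using h2
        · by_contra h
          push Not at h
          have h5 : l.2 = 0 := by
            have := h.2
            rcases mul_eq_zero.1 this with h6 | h6
            · exact absurd h6 hD0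
            · exact h6
          rw [h.1, h5] at hlV'
          simp at hlV'
          exact hD0 hlV'.symm
      exact_mod_cast this
    have hlVq : (l.1 : ℚ) * V.2 - l.2 * V.1 = D := by exact_mod_cast hlV'
    have hDq : (D : ℚ) * D = 1 := by exact_mod_cast hD2
    have hDq0 : (D : ℚ) ≠ 0 := by exact_mod_cast hD0
    push_cast at z1 z2 z3 z4
    have t1 : (1 : ℚ) / (((det2 R1 (1, 0) : ℤ) : ℚ) * ((det2 R1 (0, 1) : ℤ) : ℚ)) =
        -(1 / ((l.1 * q + D * V.1) * (l.2 * q + D * V.2))) := by
      have h : ((det2 R1 (1, 0) : ℤ) : ℚ) * ((det2 R1 (0, 1) : ℤ) : ℚ) =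
          -((l.1 * q + D * V.1) * (l.2 * q + D * V.2)) := by
        simp only [hR1, det2]
        push_cast
        ring
      rw [h, one_div, one_div, inv_neg]
    have t1' : (1 : ℚ) / (((det2 R1' (1, 0) : ℤ) : ℚ) * ((det2 R1' (0, 1) : ℤ) : ℚ)) =
        -(1 / ((l.1 * q + D * V.1) * (l.2 * q + D * V.2))) := by
      have h : ((det2 R1' (1, 0) : ℤ) : ℚ) * ((det2 R1' (0, 1) : ℤ) : ℚ) =
          -((l.1 * q + D * V.1) * (l.2 * q + D * V.2)) := by
        simp only [hR1', det2]
        push_cast
        ring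
      rw [h, one_div, one_div, inv_neg]
    have t2 : (1 : ℚ) / (((det2 R2 (1, 0) : ℤ) : ℚ) * ((det2 R2 (0, 1) : ℤ) : ℚ)) =
        -(1 / ((V.1 * q + D * l.1) * (V.2 * q + D * l.2))) := by
      have h : ((det2 R2 (1, 0) : ℤ) : ℚ) * ((det2 R2 (0, 1) : ℤ) : ℚ) =
          -((V.1 * q + D * l.1) * (V.2 * q + D * l.2)) := by
        simp only [hR2, det2]
        push_cast
        linear_combination (-(V.1 * V.2 * q ^ 2 : ℚ) + l.1 * l.2) * hDq
      rw [h, one_div, one_div, inv_neg]
    have t2' : (1 : ℚ) / (((det2 R2' (1, 0) : ℤ) : ℚ) * ((det2 R2' (0, 1) : ℤ) : ℚ)) =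
        -(1 / ((V.1 * q + D * l.1) * (V.2 * q + D * l.2))) := by
      have h : ((det2 R2' (1, 0) : ℤ) : ℚ) * ((det2 R2' (0, 1) : ℤ) : ℚ) =
          -((V.1 * q + D * l.1) * (V.2 * q + D * l.2)) := by
        simp only [hR2', det2]
        push_cast
        linear_combination (-(V.1 * V.2 * q ^ 2 : ℚ) + l.1 * l.2) * hDq
      rw [h, one_div, one_div, inv_neg]
    rw [t1, t1', t2, t2']
    unfold r2
    push_cast
    have u1 : (D : ℚ) * V.2 / (D * V.2 * q + l.2) = V.2 / (V.2 * q + D * l.2) := by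
      have h : (D : ℚ) * V.2 * q + l.2 = D * (V.2 * q + D * l.2) := by
        linear_combination (-(l.2 : ℚ)) * hDq
      rw [h, mul_div_mul_left _ _ hDq0]
    have u2 : (D : ℚ) * l.1 / (D * l.1 * q + V.1) = l.1 / (l.1 * q + D * V.1) := by
      have h : (D : ℚ) * l.1 * q + V.1 = D * (l.1 * q + D * V.1) := by
        linear_combination (-(V.1 : ℚ)) * hDq
      rw [h, mul_div_mul_left _ _ hDq0]
    rw [u1, u2]
    have e2 : (l.2 : ℚ) / (l.2 * q + D * V.2) - l.1 / (l.1 * q + D * V.1) =
        -(1 / ((l.1 * q + D * V.1) * (l.2 * q + D * V.2))) := by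
      rw [div_sub_div _ _ z2 z1, ← neg_div, div_eq_div_iff (mul_ne_zero z2 z1)
        (mul_ne_zero z1 z2)]
      linear_combination (-((l.1 * q + D * V.1) * (l.2 * q + D * V.2)) * D : ℚ) * hlVq -
        ((l.1 * q + D * V.1) * (l.2 * q + D * V.2) : ℚ) * hDq
    have e3 : (V.1 : ℚ) / (V.1 * q + D * l.1) - V.2 / (V.2 * q + D * l.2) =
        -(1 / ((V.1 * q + D * l.1) * (V.2 * q + D * l.2))) := by
      rw [div_sub_div _ _ z3 z4, ← neg_div, div_eq_div_iff (mul_ne_zero z3 z4)
        (mul_ne_zero z3 z4)]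
      linear_combination (-((V.1 * q + D * l.1) * (V.2 * q + D * l.2)) * D : ℚ) * hlVq -
        ((V.1 * q + D * l.1) * (V.2 * q + D * l.2) : ℚ) * hDq
    linear_combination -2 * e2 - 2 * e3
  rw [← hsum]
  exact key

theorem ev_abs (x : ℤ) : ∀ᶠ q : ℕ in atTop, |x| < q := by
  filter_upwards [eventually_gt_atTop x.natAbs] with q hq
  rw [Int.abs_eq_natAbs]
  exact_mod_cast hq

theorem r2_neg (q : ℚ) (a b : ℤ) : r2 q (-a) (-b) = r2 q a b := by
  unfold r2
  push_cast
  rw [show -(b : ℚ) * q + -a = -(b * q + a) by ring, show -(a : ℚ) * q + -b = -(a * q + b) by ring,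
    neg_div_neg_eq, neg_div_neg_eq]

theorem r2_swap {D : ℤ} (hD : D = 1 ∨ D = -1) (q : ℚ) (a b : ℤ) :
    r2 q (D * a) b = -r2 q (D * b) a := by
  rcases hD with rfl | rfl
  · unfold r2
    push_cast
    ring
  · unfold r2
    push_cast
    rw [show -1 * (a : ℚ) * q + b = -(a * q + -1 * b) by ring,
      show -1 * (b : ℚ) * q + a = -(b * q + -1 * a) by ring, neg_one_mul, neg_one_mul,
      neg_div_neg_eq, neg_div_neg_eq]
    ring

/-- the function of an edge -/
noncomputable def edg (q : ℚ) (D : ℤ) (L : ℤ × ℤ) (T : Tr) : ℚ :=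
  r2 q (D * (vec T).2) L.2 - r2 q (D * 1) (L.2 * (vec T).2)

theorem det_a (L : ℤ × ℤ) (a b : Tr) : (addv (rv (addv L (vec b))) (vec a)).1 =
    (addv L (vec (.cons a b))).1 := by
  simp only [addv, rv, vec]
  ring

theorem det_b (L : ℤ × ℤ) (a b : Tr) : (addv (addv L (rv (vec a))) (vec b)).1 =
    (addv L (vec (.cons a b))).1 := by
  simp only [addv, rv, vec]
  ring

/-- The limit of the sums of a tree in a context. -/
theorem tu_lim (hlq : LIMQ_Stmt) (hcs : CSCL_Stmt) {D : ℤ} (hD : D = 1 ∨ D = -1) (T : Tr) :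
    ∀ L : ℤ × ℤ, -(addv L (vec T)).1 = D → ∀ᶠ q : ℕ in atTop, q.Prime →
      Tendsto (fun s : ℕ => ((π : ℂ) / 2 ^ s) ^ 2 *
        TU (2 ^ s) (fun v => chi s q (D * v)) L T) atTop
        (𝓝 ((1 / 2 * phT q D L T + 1 / 2 * edg q D L T : ℚ) : ℂ)) := by
  have hDo : Odd D := by rcases hD with rfl | rfl <;> decide
  have hD2 : D * D = 1 := by rcases hD with rfl | rfl <;> norm_num
  induction T with
  | pw e =>
    intro L hL
    filter_upwards [ev_abs L.2, eventually_gt_atTop 2] with q hq hq2 hp
    have hqo : Odd (q : ℤ) := by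
      have := hp.odd_of_ne_two (by omega)
      exact_mod_cast this
    have h1 := hcs (-L.2) D q hDo hqo (by
      intro ρ h
      have h2 : (L.2 * ρ ^ 2).natAbs = q := by
        have h3 : (D * (ρ ^ 2 * -L.2)).natAbs = (q : ℤ).natAbs := by rw [h]
        rcases hD with rfl | rfl
        · rw [show (1 : ℤ) * (ρ ^ 2 * -L.2) = -(L.2 * ρ ^ 2) by ring, Int.natAbs_neg] at h3
          simpa using h3
        · rw [show (-1 : ℤ) * (ρ ^ 2 * -L.2) = L.2 * ρ ^ 2 by ring] at h3
          simpa using h3
      rw [Int.natAbs_mul, Int.natAbs_pow] at h2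
      have h4 : ρ.natAbs = 1 := by
        by_contra h5
        have h6 : ρ.natAbs ^ 2 ∣ q := ⟨L.2.natAbs, by rw [← h2]; ring⟩
        have h7 : ρ.natAbs ∣ q := (dvd_pow_self _ (by norm_num)).trans h6
        rcases (Nat.dvd_prime hp).1 h7 with h8 | h8
        · exact h5 h8
        · rw [h8] at h6
          have h9 := Nat.le_of_dvd hp.pos h6
          nlinarith
      rw [h4, one_pow, mul_one] at h2
      rw [Int.abs_eq_natAbs, h2] at hq
      exact absurd hq (lt_irrefl _))
    have h2 : phT (q : ℚ) D L (.pw e) = 0 := rfl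
    have h3 : edg (q : ℚ) D L (.pw e) = 0 := by
      simp only [edg, vec, mul_one, sub_self]
    rw [h2, h3]
    have h4 := h1.const_mul ((e : ℂ) / 4)
    rw [mul_zero] at h4
    have h5 : ((1 / 2 * 0 + 1 / 2 * 0 : ℚ) : ℂ) = 0 := by norm_num
    rw [h5]
    refine h4.congr fun s => ?_
    simp only [TU]
    ring
  | cons a b iha ihb =>
    intro L hL
    have ha := iha (rv (addv L (vec b))) (by rw [det_a]; exact hL)
    have hb := ihb (addv L (rv (vec a))) (by rw [det_b]; exact hL)
    have hd1 : det2 (cx (addv L (vec b))) (rv (vec a)) = D := by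
      rw [← hL]
      simp only [det2, cx, addv, rv, vec]
      ring
    have hd2 : det2 (cx (addv L (vec (.cons a b)))) (0, 1) = D := by
      rw [← hL]
      simp only [det2, cx]
      ring
    have hd3 : det2 (cx (addv (rv (addv L (vec b))) (vec a))) (0, 1) = D := by
      rw [← hL, ← det_a]
      simp only [det2, cx]
      ring
    filter_upwards [ha, hb, eventually_ge_atTop 3, ev_abs (cx (addv L (vec b))).1,
      ev_abs (cx (addv L (vec b))).2, ev_abs (rv (vec a)).1, ev_abs (rv (vec a)).2,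
      ev_abs (cx (addv L (vec (.cons a b)))).1, ev_abs (cx (addv L (vec (.cons a b)))).2,
      ev_abs (cx (addv (rv (addv L (vec b))) (vec a))).1,
      ev_abs (cx (addv (rv (addv L (vec b))) (vec a))).2] with q ha hb hq3 g1 g2 g3 g4 g5 g6 g7 g8 hp
    have hq1 : |(0 : ℤ)| < q := by
      rw [abs_zero]
      exact_mod_cast hp.pos
    have hq2 : |(1 : ℤ)| < q := by
      rw [abs_one]
      exact_mod_cast hp.one_lt
    have c1 := cc_lim hlq _ _ D hD hd1 q hp hq3 g1 g2 g3 g4
    have c2 := cc_lim hlq _ _ D hD hd2 q hp hq3 g5 g6 hq1 hq2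
    have c3 := cc_lim hlq _ _ D hD hd3 q hp hq3 g7 g8 hq1 hq2
    have key := ((((c1.sub c2).add c3).const_mul (1 / 4 : ℂ)).add (ha hp)).add (hb hp)
    have hval : (1 / 4 : ℂ) * (((2 * (r2 q (D * (rv (vec a)).2) (cx (addv L (vec b))).2 +
          r2 q (D * (cx (addv L (vec b))).1) (rv (vec a)).1) : ℚ) : ℂ) -
        ((2 * (r2 q (D * (0, 1).2) (cx (addv L (vec (.cons a b)))).2 +
          r2 q (D * (cx (addv L (vec (.cons a b)))).1) (0, 1).1) : ℚ) : ℂ) +
        ((2 * (r2 q (D * (0, 1).2) (cx (addv (rv (addv L (vec b))) (vec a))).2 +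
          r2 q (D * (cx (addv (rv (addv L (vec b))) (vec a))).1) (0, 1).1) : ℚ) : ℂ)) +
        ((1 / 2 * phT q D (rv (addv L (vec b))) a + 1 / 2 * edg q D (rv (addv L (vec b))) a : ℚ) : ℂ) +
        ((1 / 2 * phT q D (addv L (rv (vec a))) b + 1 / 2 * edg q D (addv L (rv (vec a))) b : ℚ) : ℂ) =
        ((1 / 2 * phT q D L (.cons a b) + 1 / 2 * edg q D L (.cons a b) : ℚ) : ℂ) := by
      rw [show (1 / 4 : ℂ) = ((1 / 4 : ℚ) : ℂ) by norm_num]
      rw [← Rat.cast_sub, ← Rat.cast_add, ← Rat.cast_mul, ← Rat.cast_add, ← Rat.cast_add]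
      congr 1
      have e1 : (cx (addv L (vec (.cons a b)))).1 = D := by rw [← hL]; rfl
      have e2 : (cx (addv (rv (addv L (vec b))) (vec a))).1 = D := by rw [← hL, ← det_a]; rfl
      rw [e1, e2]
      have e3 : r2 q (D * (cx (addv L (vec b))).1) (rv (vec a)).1 =
          -r2 q (D * (vec a).2) (addv L (vec b)).1 := by
        show r2 (q : ℚ) (D * -(addv L (vec b)).1) (-(vec a).2) = _
        rw [show D * -(addv L (vec b)).1 = -(D * (addv L (vec b)).1) by ring, r2_neg]
        exact r2_swap hD _ _ _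
      rw [e3]
      simp only [phT, ph3, edg]
      have w1 : (rv (vec a)).2 = (vec a).1 := rfl
      have w2 : (cx (addv L (vec b))).2 = L.2 * (vec b).2 := rfl
      have w3 : (cx (addv L (vec (.cons a b)))).2 = L.2 * (vec a).1 * (vec b).2 := by
        simp only [cx, addv, vec, rv]
        ring
      have w4 : (cx (addv (rv (addv L (vec b))) (vec a))).2 = (addv L (vec b)).1 * (vec a).2 := rfl
      have w5 : (rv (addv L (vec b))).2 = (addv L (vec b)).1 := rfl
      have w6 : (addv L (rv (vec a))).2 = L.2 * (vec a).1 := rfl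
      have w7 : (vec (.cons a b)).2 = (vec a).1 * (vec b).2 := rfl
      rw [w1, w2, w3, w4, w5, w6, w7]
      set w := L.2
      set u := (vec a).1
      set v := (vec b).2
      have s1 : r2 (q : ℚ) (D * (u * v)) w = -r2 q (D * w) (u * v) := r2_swap hD _ _ _
      have s2 : r2 (q : ℚ) (D * (w * u * v)) 1 = -r2 q (D * 1) (w * u * v) := r2_swap hD _ _ _
      rw [s1, s2, ← mul_assoc w u v]
      ring
    rw [← hval]
    refine key.congr fun s => ?_
    simp only [TU]
    ring

/-- The limit of the sums of a tree. -/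
theorem tl_lim (hlq : LIMQ_Stmt) (hcs : CSCL_Stmt) {D : ℤ} (hD : D = 1 ∨ D = -1) (T : Tr)
    (hT : -(vec T).1 = D) : ∀ᶠ q : ℕ in atTop, q.Prime →
      Tendsto (fun s : ℕ => ((π : ℂ) / 2 ^ s) ^ 2 *
        TL (2 ^ s) (fun v => chi s q (D * v)) T) atTop
        (𝓝 ((1 / 2 * phT q D (0, 1) T - 1 / q : ℚ) : ℂ)) := by
  have hD2 : D * D = 1 := by rcases hD with rfl | rfl <;> norm_num
  have hd1 : det2 (cx (vec T)) (0, 1) = D := by
    rw [← hT]
    simp only [det2, cx]
    ring
  filter_upwards [tu_lim hlq hcs hD T (0, 1) (by rw [← hT]; simp only [addv]; ring),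
    eventually_ge_atTop 3, ev_abs (cx (vec T)).1, ev_abs (cx (vec T)).2] with q h1 hq3 g1 g2 hp
  have hq1 : |(0 : ℤ)| < q := by
    rw [abs_zero]
    exact_mod_cast hp.pos
  have hq2 : |(1 : ℤ)| < q := by
    rw [abs_one]
    exact_mod_cast hp.one_lt
  have c1 := cc_lim hlq _ _ D hD hd1 q hp hq3 g1 g2 hq1 hq2
  have key := (h1 hp).add (c1.const_mul (1 / 2 : ℂ))
  have hval : ((1 / 2 * phT q D (0, 1) T + 1 / 2 * edg q D (0, 1) T : ℚ) : ℂ) +
      (1 / 2 : ℂ) * ((2 * (r2 q (D * (0, 1).2) (cx (vec T)).2 +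
        r2 q (D * (cx (vec T)).1) (0, 1).1) : ℚ) : ℂ) =
      ((1 / 2 * phT q D (0, 1) T - 1 / q : ℚ) : ℂ) := by
    rw [show (1 / 2 : ℂ) = ((1 / 2 : ℚ) : ℂ) by norm_num]
    rw [← Rat.cast_mul, ← Rat.cast_add]
    congr 1
    have e1 : (cx (vec T)).1 = D := by rw [← hT]; rfl
    have e2 : (cx (vec T)).2 = (vec T).2 := rfl
    rw [e1, e2, hD2]
    simp only [edg]
    have s1 : r2 (q : ℚ) (D * (vec T).2) 1 = -r2 q (D * 1) (vec T).2 := r2_swap hD _ _ _
    have s2 : r2 (q : ℚ) 1 0 = -(1 / q) := by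
      unfold r2
      simp
    rw [s1, s2, one_mul]
    ring
  rw [← hval]
  refine key.congr fun s => ?_
  simp only [TL]
  ring

end Pool.Agent.UC
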